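import Pool.Agent.Helper63.P705.NR.Goals

/-!
# MP_705522_gt: the identity for `RR` (packet NR-GR)
-/

namespace Pool.Agent.Helper59.NR

open MeasureTheory Set Filter Topology
open Pool.Agent.Helper53.PT
open Pool.Agent.Helper63.P705.NR

lemma intOn_mul_of_bdd {h g : ℝ → ℝ} (hh : IntegrableOn h (Ioi 0)) (hg : Continuous g)
    (hb : ∀ y, |g y| ≤ 1) : IntegrableOn (fun y => h y * g y) (Ioi 0) := by
  refine Integrable.mono' hh.norm (hh.aestronglyMeasurable.mul hg.aestronglyMeasurable) ?_
  refine Filter.Eventually.of_forall fun y => ?_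
  simp only [Real.norm_eq_abs, abs_mul]
  calc |h y| * |g y| ≤ |h y| * 1 := mul_le_mul_of_nonneg_left (hb y) (abs_nonneg _)
    _ = |h y| := mul_one _

lemma intOn_sin {h : ℝ → ℝ} (hh : IntegrableOn h (Ioi 0)) (u : ℝ) :
    IntegrableOn (fun y => h y * Real.sin (u * y)) (Ioi 0) :=
  intOn_mul_of_bdd hh (by fun_prop) fun y => Real.abs_sin_le_one _

lemma intOn_cos {h : ℝ → ℝ} (hh : IntegrableOn h (Ioi 0)) (u : ℝ) :
    IntegrableOn (fun y => h y * Real.cos (u * y)) (Ioi 0) :=
  intOn_mul_of_bdd hh (by fun_prop) fun y => Real.abs_cos_le_one _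

theorem gR : Pool.Agent.Helper63.P705.NR.GR := by
  intro hGD hGM hGF θ h49 h12 u hu
  have h0 : 0 < θ := by linarith
  obtain ⟨hk, hsg, hzc, hzb, -, hfd, hzi, -⟩ := hGD θ h0 h12
  obtain ⟨-, -, -, hF1, -, -, -, -⟩ := hGM hGD θ h0 h12
  have hde : 0 < de θ := by unfold de; linarith
  set p : ℝ := 1 / θ - 2 with hp
  have hp0 : 0 < p := by
    have : 2 < 1 / θ := by rw [lt_div_iff₀ h0]; linarith
    linarith
  have hpde : p = de θ / θ := by
    rw [hp]; unfold de; field_simp
  -- integrability facts
  have i1 : IntegrableOn (fun y => y * zf θ y) (Ioi 0) := by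
    refine IntegrableOn.congr_fun (hzi 1 (by norm_num)) (fun y hy => ?_) measurableSet_Ioi
    simp only [Real.rpow_one]
  have iff0 : IntegrableOn (ff θ) (Ioi 0) := by
    refine IntegrableOn.congr_fun (Integrable.const_mul (hzi p (by linarith)) (kap θ))
      (fun y hy => ?_) measurableSet_Ioi
    simp only [ff, vf]; ring
  have i2 : IntegrableOn (fun y => y * ff θ y) (Ioi 0) := by
    refine IntegrableOn.congr_fun (Integrable.const_mul (hzi (p + 1) (by linarith)) (kap θ))
      (fun y hy => ?_) measurableSet_Ioi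
    have hy' : (0 : ℝ) < y := hy
    simp only [ff, vf]
    rw [Real.rpow_add hy', Real.rpow_one]; ring
  have i3 : IntegrableOn (fun y => ff θ y / (θ * y)) (Ioi 0) := by
    refine IntegrableOn.congr_fun (Integrable.const_mul (hzi (p - 1) (by linarith)) (kap θ / θ))
      (fun y hy => ?_) measurableSet_Ioi
    have hy' : (0 : ℝ) < y := hy
    simp only [ff, vf]
    rw [Real.rpow_sub hy', Real.rpow_one, ← hp]
    field_simp
  have i4 : IntegrableOn (fun y => y * vf θ y * ff θ y) (Ioi 0) := by
    refine IntegrableOn.congr_fun (Integrable.const_mul (hzi (p + p + 1) (by linarith)) (kap θ * kap θ))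
      (fun y hy => ?_) measurableSet_Ioi
    have hy' : (0 : ℝ) < y := hy
    simp only [ff, vf]
    rw [Real.rpow_add hy', Real.rpow_add hy', Real.rpow_one]; ring
  have i5 : IntegrableOn (fun y => (1 / θ - 2) * ff θ y / y - y * vf θ y * ff θ y) (Ioi 0) := by
    refine IntegrableOn.congr_fun (IntegrableOn.sub (Integrable.const_mul i3 (de θ)) i4)
      (fun y hy => ?_) measurableSet_Ioi
    have hy' : (0 : ℝ) < y := hy
    simp only [Pi.sub_apply]
    rw [show (1 / θ - 2) = de θ / θ from hpde]
    field_simp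
  -- integration by parts
  have ibp : (∫ y in Ioi (0 : ℝ), (((1 / θ - 2) * ff θ y / y - y * vf θ y * ff θ y) * Real.sin (u * y) +
      ff θ y * (Real.cos (u * y) * u))) = 0 := by
    have hd : ∀ y ∈ Ioi (0 : ℝ), HasDerivAt (fun y => ff θ y * Real.sin (u * y))
        (((1 / θ - 2) * ff θ y / y - y * vf θ y * ff θ y) * Real.sin (u * y) +
          ff θ y * (Real.cos (u * y) * u)) y := by
      intro y hy
      have h1 := hfd y hy
      have h2 : HasDerivAt (fun y : ℝ => Real.sin (u * y)) (Real.cos (u * y) * u) y := by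
        have h3 : HasDerivAt (fun y : ℝ => u * y) u y := by
          simpa using (hasDerivAt_id y).const_mul u
        exact h3.sin
      exact h1.mul h2
    have hint' : IntegrableOn (fun y => ((1 / θ - 2) * ff θ y / y - y * vf θ y * ff θ y) * Real.sin (u * y) +
          ff θ y * (Real.cos (u * y) * u)) (Ioi 0) := by
      refine (intOn_sin i5 u).add ?_
      exact IntegrableOn.congr_fun (Integrable.mul_const (intOn_cos iff0 u) u)
        (fun y _ => (by ring : ff θ y * Real.cos (u * y) * u = ff θ y * (Real.cos (u * y) * u))) measurableSet_Ioi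
    have hcont : ContinuousWithinAt (fun y => ff θ y * Real.sin (u * y)) (Ici 0) 0 := by
      apply ContinuousAt.continuousWithinAt
      have hv : ContinuousAt (vf θ) 0 := by
        unfold vf
        exact continuousAt_const.mul (Real.continuousAt_rpow_const _ _ (Or.inr hp0.le))
      have hz : ContinuousAt (zf θ) 0 := hzc.continuousAt
      exact (hv.mul hz).mul (by fun_prop)
    have htend : Tendsto (fun y => ff θ y * Real.sin (u * y)) atTop (𝓝 0) :=
      tendsto_zero_of_hasDerivAt_of_integrableOn_Ioi hd hint' (intOn_sin iff0 u)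
    have := integral_Ioi_of_hasDerivAt_of_tendsto hcont hd hint' htend
    rw [this]; simp
  obtain ⟨e0, -, e1, e2⟩ := hGF hGD hGM θ h0 h12 u
  have i6 : IntegrableOn (nf θ) (Ioi 0) := by
    -- `de nf = y z (v-1)^2 = y z - 2 y ff + y v ff`
    refine IntegrableOn.congr_fun (Integrable.const_mul
      (IntegrableOn.add (IntegrableOn.sub i1 (Integrable.const_mul i2 2)) i4) (1 / de θ))
      (fun y hy => ?_) measurableSet_Ioi
    simp only [Pi.add_apply, Pi.sub_apply, nf, ff]
    field_simp
    ring
  have hsplit : (∫ y in Ioi (0 : ℝ), ((1 / θ - 2) * ff θ y / y - y * vf θ y * ff θ y) * Real.sin (u * y)) +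
      u * f0 θ (u ^ 2) = 0 := by
    rw [integral_add (intOn_sin i5 u)] at ibp
    · rw [e0, ← integral_const_mul]
      have : (∫ y in Ioi (0 : ℝ), u * (ff θ y * Real.cos (u * y))) =
          ∫ y in Ioi (0 : ℝ), ff θ y * (Real.cos (u * y) * u) := by
        apply setIntegral_congr_fun measurableSet_Ioi
        intro y _
        simp only; ring
      rw [this]; exact ibp
    · exact IntegrableOn.congr_fun (Integrable.mul_const (intOn_cos iff0 u) u)
        (fun y _ => (by ring : ff θ y * Real.cos (u * y) * u = ff θ y * (Real.cos (u * y) * u))) measurableSet_Ioi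
  have hmain : u * (de θ * RR θ (u ^ 2)) = de θ * ((∫ y in Ioi (0 : ℝ), ff θ y / (θ * y) * Real.sin (u * y)) -
      ∫ y in Ioi (0 : ℝ), nf θ y * Real.sin (u * y)) := by
    have hRR : de θ * RR θ (u ^ 2) = 2 * f2 θ (u ^ 2) + 2 * f1 θ (u ^ 2) - f0 θ (u ^ 2) := by
      unfold RR; field_simp
    have hA : u * (de θ * RR θ (u ^ 2)) = -(∫ y in Ioi (0 : ℝ), y * zf θ y * Real.sin (u * y)) +
        2 * (∫ y in Ioi (0 : ℝ), y * ff θ y * Real.sin (u * y)) +
        ∫ y in Ioi (0 : ℝ), ((1 / θ - 2) * ff θ y / y - y * vf θ y * ff θ y) * Real.sin (u * y) := by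
      rw [hRR]
      linear_combination e2 + 2 * e1 - hsplit
    rw [hA, mul_sub, ← integral_const_mul, ← integral_const_mul, ← integral_const_mul, ← integral_neg,
      ← integral_add, ← integral_add, ← integral_sub]
    · apply setIntegral_congr_fun measurableSet_Ioi
      intro y hy
      have hy' : (0 : ℝ) < y := hy
      simp only [nf, ff]
      rw [show (1 / θ - 2) = de θ / θ from hpde]
      field_simp
      ring
    · exact (intOn_sin i3 u).const_mul _
    · exact (intOn_sin i6 u).const_mul _
    · exact (intOn_sin i1 u).neg.add ((intOn_sin i2 u).const_mul 2)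
    · exact intOn_sin i5 u
    · exact (intOn_sin i1 u).neg
    · exact (intOn_sin i2 u).const_mul 2
  refine ⟨i3, ?_, ?_⟩
  · have : de θ * (u * RR θ (u ^ 2)) = de θ * ((∫ y in Ioi (0 : ℝ), ff θ y / (θ * y) * Real.sin (u * y)) -
      ∫ y in Ioi (0 : ℝ), nf θ y * Real.sin (u * y)) := by rw [← hmain]; ring
    exact mul_left_cancel₀ hde.ne' this
  · -- Fubini
    have hf : ∀ τ : ℝ, f0 θ ((τ * u) ^ 2) = ∫ y in Ioi (0 : ℝ), ff θ y * Real.cos (τ * u * y) :=
      fun τ => (hGF hGD hGM θ h0 h12 (τ * u)).1
    have hsw : (∫ τ in (0 : ℝ)..1, f0 θ ((τ * u) ^ 2)) =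
        ∫ y in Ioi (0 : ℝ), ∫ τ in (0 : ℝ)..1, ff θ y * Real.cos (τ * u * y) := by
      simp_rw [hf, intervalIntegral.integral_of_le (zero_le_one' ℝ)]
      have hb : Integrable (fun q : ℝ × ℝ => (1 : ℝ) * ff θ q.2)
          ((volume.restrict (Ioc (0 : ℝ) 1)).prod (volume.restrict (Ioi (0 : ℝ)))) :=
        Integrable.mul_prod (integrable_const (1 : ℝ)) iff0
      refine integral_integral_swap (f := fun τ y => ff θ y * Real.cos (τ * u * y)) ?_
      refine Integrable.mono' hb.norm ?_ ?_
      · have h1 : AEStronglyMeasurable (fun q : ℝ × ℝ => ff θ q.2)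
            ((volume.restrict (Ioc (0 : ℝ) 1)).prod (volume.restrict (Ioi (0 : ℝ)))) := by
          simpa using hb.aestronglyMeasurable
        exact h1.mul (by fun_prop : Continuous fun q : ℝ × ℝ => Real.cos (q.1 * u * q.2)).aestronglyMeasurable
      · refine Filter.Eventually.of_forall fun q => ?_
        simp only [Function.uncurry, Real.norm_eq_abs, abs_mul, one_mul]
        calc |ff θ q.2| * |Real.cos (q.1 * u * q.2)| ≤ |ff θ q.2| * 1 :=
              mul_le_mul_of_nonneg_left (Real.abs_cos_le_one _) (abs_nonneg _)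
          _ = |ff θ q.2| := mul_one _
    rw [hsw, ← integral_const_mul]
    apply setIntegral_congr_fun measurableSet_Ioi
    intro y hy
    have hy' : (0 : ℝ) < y := hy
    simp only
    have hc : (∫ τ in (0 : ℝ)..1, ff θ y * Real.cos (τ * u * y)) = ff θ y * (Real.sin (u * y) / (u * y)) := by
      rw [intervalIntegral.integral_const_mul]
      congr 1
      have huy : u * y ≠ 0 := by positivity
      have := intervalIntegral.integral_comp_mul_right (a := 0) (b := 1) (fun x => Real.cos x) huy
      simp only [mul_assoc] at this ⊢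
      rw [this]
      simp [integral_cos]
      field_simp
    rw [hc]
    field_simp

end Pool.Agent.Helper59.NR
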